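import Pool.Agent.L0h41.QN.W1

set_option autoImplicit false

/-!
# Integers with at most five prime factors in `(n², n² + Λ log n]` for almost all `n`

For every `ε > 0` there are `κ, Λ > 0` such that for all large `X` and all `T` between `Λ log X` and a fixed power of
`log X` all but at most `ε X` of the integers `n ≤ X` have at least `κ T / log X` integers `m` in `(n², n² + T]` with at
most FIVE prime factors, counted with multiplicity, all of them `≥ X^(1/10)`. The same holds in all intervals of length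
`≥ X^θ`, with `k > 1/8 + 25/(6θ)` prime factors. In particular the intervals `(n², n² + (log₂ n)²]` of the question
contain at least `κ log n` such integers.

Proof: sieve weights of level `L^(1 - o(1))` for the pairs of values of `n² + h`, `h ≤ T`; the mean square of the
singular series is the theorem `Pool.Agent.Y862.SQ.t_AVG` of the starting files. `Pool/Agent/L0h41/QN`.
-/

namespace Pool.Agent.Results.MP_73869e_nt.FivePrimeFactors

open Finset

open Classical in
/-- The number of the integers `m` with `n² < m ≤ n² + T` that have at most `k` prime factors, counted with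
multiplicity, all of them `≥ v`. -/
noncomputable def N (n k T : ℕ) (v : ℝ) : ℕ :=
  ((Ioc (n ^ 2) (n ^ 2 + T)).filter (fun m => m.primeFactorsList.length ≤ k ∧
    ∀ p : ℕ, p.Prime → p ∣ m → v ≤ (p : ℝ))).card

lemma N_mono (n k T T' : ℕ) (v : ℝ) (h : T ≤ T') : N n k T v ≤ N n k T' v := by
  classical
  unfold N
  apply card_le_card
  apply filter_subset_filter
  intro m hm
  rw [mem_Ioc] at hm ⊢
  omega

open Classical in
theorem result (θ ε : ℝ) (k : ℕ) (hθ : 0 < θ) (hθ1 : θ ≤ 1) (hk : 1 / 8 + 25 / (6 * θ) < k) (hε : 0 < ε) :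
    ∃ κ Λ : ℝ, 0 < κ ∧ 0 < Λ ∧ ∀ B : ℕ, ∃ X₀ : ℕ, ∀ X : ℕ, X₀ ≤ X → ∀ Z L : ℕ, (X : ℝ) ^ θ ≤ L → Z + L ≤ X →
      (∀ T : ℕ, Λ * Real.log X ≤ T → (T : ℝ) ≤ Real.log X ^ B →
        (((Ioc Z (Z + L)).filter (fun n : ℕ =>
          (N n k T ((X : ℝ) ^ (θ / 10)) : ℝ) < κ * (T / Real.log X))).card : ℝ) ≤ ε * L) ∧
      (((Ioc Z (Z + L)).filter (fun n : ℕ =>
        (N n k ⌊(Real.logb 2 n) ^ 2⌋₊ ((X : ℝ) ^ (θ / 10)) : ℝ) < κ * Real.log n)).card : ℝ) ≤ ε * L := by
  obtain ⟨κ, Λ, hκ, hΛ, H⟩ := Pool.Agent.L0h41.QN.mainSq θ (ε / 2) k hθ hθ1 hk (half_pos hε)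
  have hθ2 : 0 < θ ^ 2 / 4 := by positivity
  have hθ3 : θ ^ 2 / 4 ≤ 1 := by nlinarith
  refine ⟨κ * (θ ^ 2 / 4), Λ, by positivity, hΛ, ?_⟩
  intro B
  have tl : Filter.Tendsto (fun X : ℕ => Real.log (X : ℝ)) Filter.atTop Filter.atTop :=
    Real.tendsto_log_atTop.comp tendsto_natCast_atTop_atTop
  have ev3 := tl.eventually_ge_atTop (Λ * (4 / θ ^ 2) + 4 / θ ^ 2 + 3)
  have ev4 := ((tendsto_rpow_atTop (by positivity : 0 < θ / 2)).comp
    tendsto_natCast_atTop_atTop).eventually_ge_atTop (2 / ε)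
  obtain ⟨X₀, hX₀⟩ := Filter.eventually_atTop.1 ((((H B).and (H 3)).and ev3).and ev4)
  refine ⟨max X₀ 2, ?_⟩
  intro X hX Z L hL hZL
  obtain ⟨⟨⟨h1, h2⟩, h3⟩, h4⟩ := hX₀ X ((le_max_left _ _).trans hX)
  have hX2 : 2 ≤ X := (le_max_right _ _).trans hX
  have hX1 : (1 : ℝ) ≤ X := by exact_mod_cast (by omega : 1 ≤ X)
  have hX0 : (0 : ℝ) < X := by linarith
  have h4 : 2 / ε ≤ (X : ℝ) ^ (θ / 2) := h4
  have hL0 : (0 : ℝ) ≤ L := Nat.cast_nonneg _
  have hl0 : 0 < Real.log X := by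
    have : 0 < Λ * (4 / θ ^ 2) := by positivity
    have : 0 < 4 / θ ^ 2 := by positivity
    linarith
  have hl3 : 3 ≤ Real.log X := by
    have : 0 < Λ * (4 / θ ^ 2) := by positivity
    have : 0 < 4 / θ ^ 2 := by positivity
    linarith
  constructor
  · intro T hT1 hT2
    refine le_trans ?_ ((h1 Z L T hL hZL hT1 hT2).trans (by nlinarith))
    have : ((Ioc Z (Z + L)).filter (fun n : ℕ =>
        (N n k T ((X : ℝ) ^ (θ / 10)) : ℝ) < κ * (θ ^ 2 / 4) * (T / Real.log X))).card ≤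
        ((Ioc Z (Z + L)).filter (fun n =>
          (Pool.Agent.L0h41.QN.Nsq n k T ((X : ℝ) ^ (θ / 10)) : ℝ) < κ * (T / Real.log X))).card := by
      apply card_le_card
      intro n hn
      rw [mem_filter] at hn ⊢
      refine ⟨hn.1, lt_of_lt_of_le hn.2 ?_⟩
      have hT0 : (0 : ℝ) ≤ T / Real.log X := by positivity
      apply mul_le_mul_of_nonneg_right _ hT0
      nlinarith
    exact_mod_cast this
  · -- the intervals of the question
    obtain ⟨T, hT⟩ : ∃ T : ℕ, T = ⌊(θ / 2 * Real.logb 2 X) ^ 2⌋₊ := ⟨_, rfl⟩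
    have hlb : Real.logb 2 X = Real.log X / Real.log 2 := rfl
    have hl2 : 0 < Real.log 2 := Real.log_pos (by norm_num)
    have hl2' : Real.log 2 < 0.7 := by
      have := Real.log_two_lt_d9
      linarith
    have hl2'' : 1 / 2 < Real.log 2 := by
      have := Real.log_two_gt_d9
      linarith
    have hlb1 : Real.log X / 0.7 ≤ Real.logb 2 X := by
      rw [hlb]
      exact div_le_div_of_nonneg_left hl0.le hl2 hl2'.le
    have hlb2 : Real.logb 2 X ≤ 2 * Real.log X := by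
      rw [hlb, div_le_iff₀ hl2]
      nlinarith
    have hlb0 : 0 < Real.logb 2 X := lt_of_lt_of_le (by positivity) hlb1
    have hsq : θ ^ 2 / 4 * (2 * Real.log X ^ 2) ≤ (θ / 2 * Real.logb 2 X) ^ 2 := by
      have a1 : (Real.log X / 0.7) ^ 2 ≤ Real.logb 2 X ^ 2 := pow_le_pow_left₀ (by positivity) hlb1 2
      have a2 : 2 * Real.log X ^ 2 ≤ (Real.log X / 0.7) ^ 2 := by
        rw [div_pow, le_div_iff₀ (by norm_num)]
        nlinarith [sq_nonneg (Real.log X)]
      calc θ ^ 2 / 4 * (2 * Real.log X ^ 2) ≤ θ ^ 2 / 4 * Real.logb 2 X ^ 2 :=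
            mul_le_mul_of_nonneg_left (a2.trans a1) hθ2.le
        _ = _ := by ring
    have hT1 : θ ^ 2 / 4 * Real.log X ^ 2 ≤ T := by
      have a1 := Nat.lt_floor_add_one ((θ / 2 * Real.logb 2 X) ^ 2)
      rw [← hT] at a1
      have a2 : 4 / θ ^ 2 ≤ Real.log X := by
        have : 0 < Λ * (4 / θ ^ 2) := by positivity
        linarith
      rw [div_le_iff₀ (by positivity)] at a2
      have a3 : 1 ≤ θ ^ 2 / 4 * Real.log X ^ 2 := by nlinarith
      linarith
    have hT2 : Λ * Real.log X ≤ T := by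
      refine le_trans ?_ hT1
      have a2 : Λ * (4 / θ ^ 2) ≤ Real.log X := by
        have : 0 < 4 / θ ^ 2 := by positivity
        linarith
      have a3 : Λ ≤ θ ^ 2 / 4 * Real.log X := by
        have e : Λ * (4 / θ ^ 2) = Λ * 4 / θ ^ 2 := by ring
        rw [e, div_le_iff₀ (by positivity)] at a2
        linarith
      nlinarith
    have hT3 : (T : ℝ) ≤ Real.log X ^ 3 := by
      rw [hT]
      refine (Nat.floor_le (by positivity)).trans ?_
      have a1 : θ / 2 * Real.logb 2 X ≤ Real.log X := by nlinarith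
      have a2 : (θ / 2 * Real.logb 2 X) ^ 2 ≤ Real.log X ^ 2 := pow_le_pow_left₀ (by positivity) a1 2
      exact a2.trans (pow_le_pow_right₀ (by linarith) (by norm_num))
    have h5 := h2 Z L T hL hZL hT2 hT3
    obtain ⟨E1, hE1⟩ : ∃ E1, E1 = ((Ioc Z (Z + L)).filter (fun n =>
          (Pool.Agent.L0h41.QN.Nsq n k T ((X : ℝ) ^ (θ / 10)) : ℝ) < κ * (T / Real.log X))) := ⟨_, rfl⟩
    rw [← hE1] at h5
    obtain ⟨M, hM⟩ : ∃ M : ℕ, M = ⌊(X : ℝ) ^ (θ / 2)⌋₊ := ⟨_, rfl⟩
    have hML : (M : ℝ) ≤ ε / 2 * L := by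
      have a1 : (M : ℝ) ≤ (X : ℝ) ^ (θ / 2) := by rw [hM]; exact Nat.floor_le (by positivity)
      have a2 : (X : ℝ) ^ θ = (X : ℝ) ^ (θ / 2) * (X : ℝ) ^ (θ / 2) := by
        rw [← Real.rpow_add hX0]
        congr 1
        ring
      have a3 : (X : ℝ) ^ (θ / 2) ≤ ε / 2 * (X : ℝ) ^ θ := by
        rw [a2]
        have a4 : 1 ≤ ε / 2 * (X : ℝ) ^ (θ / 2) := by
          rw [div_le_iff₀ hε] at h4
          linarith
        have a5 : 0 ≤ (X : ℝ) ^ (θ / 2) := by positivity
        nlinarith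
      exact a1.trans (a3.trans (mul_le_mul_of_nonneg_left hL (by positivity)))
    have hsub : (Ioc Z (Z + L)).filter (fun n : ℕ =>
        (N n k ⌊(Real.logb 2 n) ^ 2⌋₊ ((X : ℝ) ^ (θ / 10)) : ℝ) < κ * (θ ^ 2 / 4) * Real.log n) ⊆
        E1 ∪ Ioc 0 M := by
      intro n hn
      rw [mem_filter, mem_Ioc] at hn
      obtain ⟨⟨a1, a1'⟩, a2⟩ := hn
      rw [mem_union]
      rcases Nat.lt_or_ge M n with b1 | b1
      · left
        rw [hE1, mem_filter, mem_Ioc]
        refine ⟨⟨a1, a1'⟩, ?_⟩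
        have b2 : (X : ℝ) ^ (θ / 2) ≤ n := by
          rw [hM] at b1
          exact (Nat.lt_of_floor_lt b1).le
        have b3 : (n : ℝ) ≤ X := by exact_mod_cast (by omega : n ≤ X)
        have b0 : (0 : ℝ) < n := lt_of_lt_of_le (by positivity) b2
        have b4 : θ / 2 * Real.logb 2 X ≤ Real.logb 2 n := by
          rw [← Real.logb_rpow_eq_mul_logb_of_pos hX0]
          exact Real.logb_le_logb_of_le (by norm_num) (by positivity) b2
        have b5 : T ≤ ⌊(Real.logb 2 n) ^ 2⌋₊ := by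
          rw [hT]
          exact Nat.floor_le_floor (pow_le_pow_left₀ (by positivity) b4 2)
        have b6 : (N n k T ((X : ℝ) ^ (θ / 10)) : ℝ) ≤ N n k ⌊(Real.logb 2 n) ^ 2⌋₊ ((X : ℝ) ^ (θ / 10)) := by
          exact_mod_cast N_mono n k _ _ _ b5
        have b7 : Real.log n ≤ Real.log X := Real.log_le_log b0 b3
        have b8 : θ ^ 2 / 4 * Real.log X ≤ T / Real.log X := by
          rw [le_div_iff₀ hl0]
          have e : θ ^ 2 / 4 * Real.log X * Real.log X = θ ^ 2 / 4 * Real.log X ^ 2 := by ring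
          rw [e]
          exact hT1
        have b9 : (N n k T ((X : ℝ) ^ (θ / 10)) : ℝ) < κ * (T / Real.log X) := by
          calc (N n k T ((X : ℝ) ^ (θ / 10)) : ℝ) ≤ N n k ⌊(Real.logb 2 n) ^ 2⌋₊ ((X : ℝ) ^ (θ / 10)) := b6
            _ < κ * (θ ^ 2 / 4) * Real.log n := a2
            _ ≤ κ * (θ ^ 2 / 4) * Real.log X := mul_le_mul_of_nonneg_left b7 (by positivity)
            _ = κ * (θ ^ 2 / 4 * Real.log X) := by ring
            _ ≤ κ * (T / Real.log X) := mul_le_mul_of_nonneg_left b8 hκ.le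
        exact b9
      · right
        rw [mem_Ioc]
        omega
    have h6 : ((E1 ∪ Ioc 0 M).card : ℝ) ≤ E1.card + M := by
      have := card_union_le E1 (Ioc 0 M)
      rw [Nat.card_Ioc, Nat.sub_zero] at this
      exact_mod_cast this
    have h7 : (((Ioc Z (Z + L)).filter (fun n : ℕ =>
        (N n k ⌊(Real.logb 2 n) ^ 2⌋₊ ((X : ℝ) ^ (θ / 10)) : ℝ) < κ * (θ ^ 2 / 4) * Real.log n)).card : ℝ) ≤
        (E1 ∪ Ioc 0 M).card := by exact_mod_cast card_le_card hsub
    linarith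

end Pool.Agent.Results.MP_73869e_nt.FivePrimeFactors
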