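import Pool.Agent.L0h43.SQ.Main

set_option autoImplicit false

/-!
# Sums of two squares with at most three prime factors in `(n², n² + (log₂ n)²]`

For `0 < θ ≤ 1` and `k > 1/8 + 25/(12θ)` (`θ = 1`: `k = 3`) there is `κ > 0` such that, for all `1 ≤ J ≤ (log X)^B` and
all intervals `(Z, Z + L]`, `X^θ ≤ L`, `Z + L ≤ X`, at least `κ min(1, J / log X) L` of the integers `n` in
`(Z, Z + L]` have at least one and at least `κ J / log X` integers `j` in `[1, J]` such that `n² + j²` has at most `k`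
prime factors, counted with multiplicity, all of them `≥ X^(θ/5)`. So, for EVERY `λ > 0`, for a positive proportion of
the `n` one of the numbers `n² + 1², n² + 2², …, n² + j²`, `j ≤ λ log₂ n`, has at most THREE prime factors; for
`λ = 1` these are about `log₂ n` of the `(log₂ n)²` numbers in the interval `(n², n² + (log₂ n)²]` of the question.

Proof: the weighted sieve with level nearly `L` for each `n² + j²` separately (`Pool/Agent/L0h41/PP`) gives the first
moment of the number of the almost primes; the local densities of `n² + j²` are those of `n² + 1` outside the primes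
dividing `j`, and those of a pair are the products outside the primes dividing `j j' (j - j') (j + j')`, so that the
second moment is bounded by the moments of `n / φ(n)`. `Pool/Agent/L0h43/SQ`.
-/

namespace Pool.Agent.Results.MP_73869e_nt.SumsOfTwoSquares

open Finset

/-- `m` has at most `k` prime factors, counted with multiplicity, all of them `≥ v`. -/
def AP (k : ℕ) (v : ℝ) (m : ℕ) : Prop :=
  m.primeFactorsList.length ≤ k ∧ ∀ p : ℕ, p.Prime → p ∣ m → v ≤ (p : ℝ)

open Classical in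
/-- The number of the integers `j` with `1 ≤ j ≤ J` such that `n² + j²` has at most `k` prime factors, counted with
multiplicity, all of them `≥ v`. -/
noncomputable def N (n k J : ℕ) (v : ℝ) : ℕ := ((Icc 1 J).filter (fun j => AP k v (n ^ 2 + j ^ 2))).card

lemma N_eq (n k J : ℕ) (v : ℝ) : Pool.Agent.L0h43.SQ.Nss n k J v = N n k J v := by
  classical
  unfold Pool.Agent.L0h43.SQ.Nss N
  apply le_antisymm
  · apply card_le_card
    intro j hj
    rw [mem_filter] at hj ⊢
    exact ⟨hj.1, hj.2⟩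
  · apply card_le_card
    intro j hj
    rw [mem_filter] at hj ⊢
    exact ⟨hj.1, hj.2⟩

set_option maxHeartbeats 4000000 in
open Classical in
theorem result (θ : ℝ) (k : ℕ) (hθ : 0 < θ) (hθ1 : θ ≤ 1) (hk : 1 / 8 + 25 / (12 * θ) < k) :
    (∃ κ : ℝ, 0 < κ ∧ ∀ B : ℕ, ∃ X₀ : ℕ, ∀ X : ℕ, X₀ ≤ X → ∀ Z L J : ℕ, (X : ℝ) ^ θ ≤ L → Z + L ≤ X →
      1 ≤ J → (J : ℝ) ≤ Real.log X ^ B →
        κ * min 1 (J / Real.log X) * L ≤ (((Ioc Z (Z + L)).filter (fun n : ℕ =>
          1 ≤ N n k J ((X : ℝ) ^ (θ / 5)) ∧ κ * (J / Real.log X) ≤ N n k J ((X : ℝ) ^ (θ / 5)))).card : ℝ)) ∧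
    ∀ lam : ℝ, 0 < lam → ∃ κ : ℝ, 0 < κ ∧ ∃ X₀ : ℕ, ∀ X : ℕ, X₀ ≤ X → ∀ Z L : ℕ, (X : ℝ) ^ θ ≤ L → Z + L ≤ X →
      κ * L ≤ (((Ioc Z (Z + L)).filter (fun n : ℕ => ∃ j : ℕ, 1 ≤ j ∧ (j : ℝ) ≤ lam * Real.logb 2 n ∧
        AP k ((X : ℝ) ^ (θ / 5)) (n ^ 2 + j ^ 2))).card : ℝ) := by
  obtain ⟨κ, hκ, H⟩ := Pool.Agent.L0h43.SQ.mainSS θ k hθ hθ1 hk
  constructor
  · refine ⟨κ, hκ, ?_⟩
    intro B
    obtain ⟨X₀, hX₀⟩ := Filter.eventually_atTop.1 (H B)
    refine ⟨X₀, ?_⟩
    intro X hX Z L J h1 h2 h3 h4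
    have h5 := hX₀ X hX Z L J h1 h2 h3 h4
    simp only [N_eq] at h5
    exact h5
  · intro lam hlam
    obtain ⟨μ, hμ⟩ : ∃ μ, μ = min 1 (lam * θ / 4) := ⟨_, rfl⟩
    have hμ0 : 0 < μ := by
      rw [hμ]
      exact lt_min one_pos (by positivity)
    have tl : Filter.Tendsto (fun X : ℕ => Real.log (X : ℝ)) Filter.atTop Filter.atTop :=
      Real.tendsto_log_atTop.comp tendsto_natCast_atTop_atTop
    have ev3 := tl.eventually_ge_atTop (lam + 4 / (lam * θ) + 1)
    have ev4 := ((tendsto_rpow_atTop (by positivity : 0 < θ / 2)).comp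
      tendsto_natCast_atTop_atTop).eventually_ge_atTop (2 / (κ * μ))
    obtain ⟨X₀, hX₀⟩ := Filter.eventually_atTop.1 (((H 2).and ev3).and ev4)
    refine ⟨κ * μ / 2, by positivity, max X₀ 2, ?_⟩
    intro X hX Z L hXL hZL
    obtain ⟨⟨g1, g2⟩, g3⟩ := hX₀ X ((le_max_left _ _).trans hX)
    have hX2 : 2 ≤ X := (le_max_right _ _).trans hX
    have hXr : (2 : ℝ) ≤ X := by exact_mod_cast hX2
    have hX0 : (0 : ℝ) < X := by linarith
    have hl2 : 0 < Real.log 2 := Real.log_pos (by norm_num)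
    have hl2a : Real.log 2 < 0.6931471808 := Real.log_two_lt_d9
    have hl2b : 0.6931471803 < Real.log 2 := Real.log_two_gt_d9
    have hd : 0 < 4 / (lam * θ) := by positivity
    have hlX : 1 ≤ Real.log X := by linarith
    have hlX0 : 0 < Real.log X := by linarith
    -- the length
    obtain ⟨t, ht⟩ : ∃ t, t = lam * (θ / 2) * Real.logb 2 X := ⟨_, rfl⟩
    have hlb : Real.log X ≤ Real.logb 2 X := by
      unfold Real.logb
      rw [le_div_iff₀ hl2]
      nlinarith
    have hlb2 : Real.logb 2 X ≤ 2 * Real.log X := by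
      unfold Real.logb
      rw [div_le_iff₀ hl2]
      nlinarith
    have ht1 : lam * (θ / 2) * Real.log X ≤ t := by
      rw [ht]
      exact mul_le_mul_of_nonneg_left hlb (by positivity)
    have ht2 : t ≤ lam * Real.log X := by
      rw [ht]
      calc lam * (θ / 2) * Real.logb 2 X ≤ lam * (θ / 2) * (2 * Real.log X) :=
            mul_le_mul_of_nonneg_left hlb2 (by positivity)
        _ = lam * θ * Real.log X := by ring
        _ ≤ lam * 1 * Real.log X := by gcongr
        _ = lam * Real.log X := by ring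
    have ht0 : 0 ≤ t := le_trans (by positivity) ht1
    have hlt : 4 ≤ lam * θ * Real.log X := by
      have h5 : 4 / (lam * θ) ≤ Real.log X := by linarith
      rw [div_le_iff₀ (by positivity)] at h5
      linarith
    obtain ⟨J, hJ⟩ : ∃ J, J = ⌊t⌋₊ := ⟨_, rfl⟩
    have hJt : (J : ℝ) ≤ t := by rw [hJ]; exact Nat.floor_le ht0
    have hJt1 : t - 1 < J := by rw [hJ]; exact Nat.sub_one_lt_floor t
    have hJlow : lam * θ / 4 * Real.log X ≤ J := by
      have : lam * (θ / 2) * Real.log X = lam * θ / 4 * Real.log X + lam * θ * Real.log X / 4 := by ring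
      linarith
    have hJ1 : 1 ≤ J := by
      have : (0 : ℝ) < J := lt_of_lt_of_le (by positivity) hJlow
      exact_mod_cast this
    have hJ2 : (J : ℝ) ≤ Real.log X ^ 2 := by
      have h5 : lam ≤ Real.log X := by linarith
      nlinarith
    have h6 := g1 Z L J hXL hZL hJ1 hJ2
    have hmin : μ ≤ min 1 (J / Real.log X) := by
      rw [hμ]
      apply min_le_min_left
      rw [le_div_iff₀ hlX0]
      exact hJlow
    -- the small n
    have hsmall : (((Ioc Z (Z + L)).filter (fun n : ℕ => (n : ℝ) < (X : ℝ) ^ (θ / 2))).card : ℝ) ≤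
        (X : ℝ) ^ (θ / 2) := by
      have h7 : (Ioc Z (Z + L)).filter (fun n : ℕ => (n : ℝ) < (X : ℝ) ^ (θ / 2)) ⊆
          Icc 1 ⌊(X : ℝ) ^ (θ / 2)⌋₊ := by
        intro n hn
        rw [mem_filter, mem_Ioc] at hn
        rw [mem_Icc]
        exact ⟨by omega, Nat.le_floor hn.2.le⟩
      have h8 := card_le_card h7
      rw [Nat.card_Icc, Nat.add_sub_cancel] at h8
      calc (((Ioc Z (Z + L)).filter (fun n : ℕ => (n : ℝ) < (X : ℝ) ^ (θ / 2))).card : ℝ) ≤
            (⌊(X : ℝ) ^ (θ / 2)⌋₊ : ℝ) := by exact_mod_cast h8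
        _ ≤ _ := Nat.floor_le (by positivity)
    have hLs : (X : ℝ) ^ (θ / 2) ≤ κ * μ / 2 * L := by
      have h7 : (X : ℝ) ^ θ = (X : ℝ) ^ (θ / 2) * (X : ℝ) ^ (θ / 2) := by
        rw [← Real.rpow_add hX0]
        congr 1
        ring
      have h8 : 2 / (κ * μ) ≤ (X : ℝ) ^ (θ / 2) := g3
      rw [div_le_iff₀ (by positivity)] at h8
      have h9 : 0 < (X : ℝ) ^ (θ / 2) := by positivity
      calc (X : ℝ) ^ (θ / 2) ≤ κ * μ / 2 * ((X : ℝ) ^ (θ / 2) * (X : ℝ) ^ (θ / 2)) := by nlinarith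
        _ = κ * μ / 2 * (X : ℝ) ^ θ := by rw [h7]
        _ ≤ κ * μ / 2 * L := mul_le_mul_of_nonneg_left hXL (by positivity)
    have hsub : (Ioc Z (Z + L)).filter (fun n => 1 ≤ Pool.Agent.L0h43.SQ.Nss n k J ((X : ℝ) ^ (θ / 5)) ∧
        κ * (J / Real.log X) ≤ Pool.Agent.L0h43.SQ.Nss n k J ((X : ℝ) ^ (θ / 5))) ⊆
        (Ioc Z (Z + L)).filter (fun n : ℕ => (n : ℝ) < (X : ℝ) ^ (θ / 2)) ∪
        (Ioc Z (Z + L)).filter (fun n : ℕ => ∃ j : ℕ, 1 ≤ j ∧ (j : ℝ) ≤ lam * Real.logb 2 n ∧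
          AP k ((X : ℝ) ^ (θ / 5)) (n ^ 2 + j ^ 2)) := by
      intro n hn
      rw [mem_filter] at hn
      rw [mem_union, mem_filter, mem_filter]
      by_cases hs : (n : ℝ) < (X : ℝ) ^ (θ / 2)
      · exact Or.inl ⟨hn.1, hs⟩
      · right
        push Not at hs
        refine ⟨hn.1, ?_⟩
        have h7 := hn.2.1
        unfold Pool.Agent.L0h43.SQ.Nss at h7
        obtain ⟨j, hj⟩ := card_pos.1 h7
        rw [mem_filter, mem_Icc] at hj
        refine ⟨j, hj.1.1, ?_, hj.2⟩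
        have h8 : (j : ℝ) ≤ J := by exact_mod_cast hj.1.2
        refine h8.trans (hJt.trans ?_)
        have h9 : θ / 2 * Real.logb 2 X ≤ Real.logb 2 n := by
          have h10 : Real.logb 2 ((X : ℝ) ^ (θ / 2)) ≤ Real.logb 2 n :=
            Real.logb_le_logb_of_le (by norm_num) (by positivity) hs
          rwa [Real.logb_rpow_eq_mul_logb_of_pos hX0] at h10
        rw [ht]
        calc lam * (θ / 2) * Real.logb 2 X = lam * (θ / 2 * Real.logb 2 X) := by ring
          _ ≤ lam * Real.logb 2 n := mul_le_mul_of_nonneg_left h9 hlam.le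
    have hcard := (card_le_card hsub).trans (card_union_le _ _)
    have hcard' : (((Ioc Z (Z + L)).filter (fun n => 1 ≤ Pool.Agent.L0h43.SQ.Nss n k J ((X : ℝ) ^ (θ / 5)) ∧
        κ * (J / Real.log X) ≤ Pool.Agent.L0h43.SQ.Nss n k J ((X : ℝ) ^ (θ / 5)))).card : ℝ) ≤
        (((Ioc Z (Z + L)).filter (fun n : ℕ => (n : ℝ) < (X : ℝ) ^ (θ / 2))).card : ℝ) +
        (((Ioc Z (Z + L)).filter (fun n : ℕ => ∃ j : ℕ, 1 ≤ j ∧ (j : ℝ) ≤ lam * Real.logb 2 n ∧
          AP k ((X : ℝ) ^ (θ / 5)) (n ^ 2 + j ^ 2))).card : ℝ) := by exact_mod_cast hcard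
    have h7 : κ * μ * L ≤ κ * min 1 (J / Real.log X) * L := by gcongr
    have e : κ * μ / 2 * L = κ * μ * L - κ * μ / 2 * L := by ring
    linarith

end Pool.Agent.Results.MP_73869e_nt.SumsOfTwoSquares
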