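import Pool.Agent.L0h41.PP.D

set_option autoImplicit false

/-!
# Integers with at most three prime factors in `(n², n² + λ log n]` for a positive proportion of the `n`

For `0 < θ ≤ 1` and `k > 1/8 + 25/(12θ)` (`θ = 1`: `k = 3`) there is `κ > 0` such that, for all `T` between a constant
and a fixed power of `log X` and all intervals `(Z, Z + L]`, `X^θ ≤ L`, `Z + L ≤ X`, at least
`κ min(1, T / log X) L` of the integers `n` in `(Z, Z + L]` have at least one and at least `κ T / log X` integers `m` in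
`(n², n² + T]` with at most `k` prime factors, counted with multiplicity, all of them `≥ X^(θ/5)`. So for EVERY
`λ > 0` a positive proportion of the windows `(n², n² + λ log n]` contain an integer with at most THREE prime factors;
and at least `κ L` of the intervals `(n², n² + (log₂ n)²]` of the question contain at least `κ log n` of them.

Proof: the weighted sieve with level nearly `L` for each `n² + h` separately gives the first moment of the number of the
almost primes in the window, the mean square of the singular series (`Pool.Agent.Y862.SQ.t_AVG` of the starting files)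
bounds the second moment of the number of the sifted values. `Pool/Agent/L0h41/PP`.
-/

namespace Pool.Agent.Results.MP_73869e_nt.ThreePrimeFactors

open Finset

open Classical in
/-- The number of the integers `m` with `n² < m ≤ n² + T` that have at most `k` prime factors, counted with
multiplicity, all of them `≥ v`. -/
noncomputable def N (n k T : ℕ) (v : ℝ) : ℕ :=
  ((Ioc (n ^ 2) (n ^ 2 + T)).filter (fun m => m.primeFactorsList.length ≤ k ∧
    ∀ p : ℕ, p.Prime → p ∣ m → v ≤ (p : ℝ))).card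

lemma N_mono (n k T T' : ℕ) (v : ℝ) (h : T ≤ T') : N n k T v ≤ N n k T' v := by
  classical
  unfold N
  apply card_le_card
  apply filter_subset_filter
  intro m hm
  rw [mem_Ioc] at hm ⊢
  omega

set_option maxHeartbeats 4000000 in
open Classical in
theorem result (θ : ℝ) (k : ℕ) (hθ : 0 < θ) (hθ1 : θ ≤ 1) (hk : 1 / 8 + 25 / (12 * θ) < k) :
    ∃ (κ : ℝ) (T₀ : ℕ), 0 < κ ∧ ∀ B : ℕ, ∃ X₀ : ℕ, ∀ X : ℕ, X₀ ≤ X → ∀ Z L : ℕ, (X : ℝ) ^ θ ≤ L → Z + L ≤ X →
      (∀ T : ℕ, T₀ ≤ T → (T : ℝ) ≤ Real.log X ^ B →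
        κ * min 1 (T / Real.log X) * L ≤ (((Ioc Z (Z + L)).filter (fun n : ℕ =>
          1 ≤ N n k T ((X : ℝ) ^ (θ / 5)) ∧ κ * (T / Real.log X) ≤ N n k T ((X : ℝ) ^ (θ / 5)))).card : ℝ)) ∧
      κ * L ≤ (((Ioc Z (Z + L)).filter (fun n : ℕ =>
        κ * Real.log n ≤ N n k ⌊(Real.logb 2 n) ^ 2⌋₊ ((X : ℝ) ^ (θ / 5)))).card : ℝ) := by
  obtain ⟨κ, T₀, hκ, hT₀, H⟩ := Pool.Agent.L0h41.PP.mainSqP θ k hθ hθ1 hk
  have hθ2 : 0 < θ ^ 2 / 4 := by positivity
  have hθ3 : θ ^ 2 / 4 ≤ 1 / 4 := by nlinarith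
  refine ⟨κ * (θ ^ 2 / 4), T₀, by positivity, ?_⟩
  intro B
  have tl : Filter.Tendsto (fun X : ℕ => Real.log (X : ℝ)) Filter.atTop Filter.atTop :=
    Real.tendsto_log_atTop.comp tendsto_natCast_atTop_atTop
  have ev3 := tl.eventually_ge_atTop (T₀ * (4 / θ ^ 2) + 4 / θ ^ 2 + 3)
  have ev4 := ((tendsto_rpow_atTop (by positivity : 0 < θ / 2)).comp
    tendsto_natCast_atTop_atTop).eventually_ge_atTop (2 / κ)
  obtain ⟨X₀, hX₀⟩ := Filter.eventually_atTop.1 ((((H B).and (H 3)).and ev3).and ev4)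
  refine ⟨max X₀ 2, ?_⟩
  intro X hX Z L hL hZL
  obtain ⟨⟨⟨h1, h2⟩, h3⟩, h4⟩ := hX₀ X ((le_max_left _ _).trans hX)
  have hX2 : 2 ≤ X := (le_max_right _ _).trans hX
  have hX1 : (1 : ℝ) ≤ X := by exact_mod_cast (by omega : 1 ≤ X)
  have hX0 : (0 : ℝ) < X := by linarith
  have h4 : 2 / κ ≤ (X : ℝ) ^ (θ / 2) := h4
  have hL0 : (0 : ℝ) ≤ L := Nat.cast_nonneg _
  have hT₀r : (1 : ℝ) ≤ T₀ := by exact_mod_cast hT₀
  have hq1 : 0 < (T₀ : ℝ) * (4 / θ ^ 2) := by positivity
  have hq2 : 0 < 4 / θ ^ 2 := by positivity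
  have hl0 : 0 < Real.log X := by linarith
  have hl3 : 3 ≤ Real.log X := by linarith
  constructor
  · intro T hT1 hT2
    have hT0 : (0 : ℝ) ≤ T / Real.log X := by positivity
    have hmn : 0 ≤ min 1 ((T : ℝ) / Real.log X) := le_min zero_le_one hT0
    have hκ' : κ * (θ ^ 2 / 4) ≤ κ := by nlinarith
    have g1 := h1 Z L T hL hZL hT1 hT2
    have g2 : κ * (θ ^ 2 / 4) * min 1 (T / Real.log X) * L ≤ κ * min 1 (T / Real.log X) * L := by gcongr
    refine g2.trans (g1.trans ?_)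
    have : ((Ioc Z (Z + L)).filter (fun n : ℕ => 1 ≤ Pool.Agent.L0h41.QN.Nsq n k T ((X : ℝ) ^ (θ / 5)) ∧
        κ * (T / Real.log X) ≤ Pool.Agent.L0h41.QN.Nsq n k T ((X : ℝ) ^ (θ / 5)))).card ≤
        ((Ioc Z (Z + L)).filter (fun n : ℕ => 1 ≤ N n k T ((X : ℝ) ^ (θ / 5)) ∧
          κ * (θ ^ 2 / 4) * (T / Real.log X) ≤ N n k T ((X : ℝ) ^ (θ / 5)))).card := by
      apply card_le_card
      intro n hn
      rw [mem_filter] at hn ⊢
      refine ⟨hn.1, hn.2.1, le_trans ?_ hn.2.2⟩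
      exact mul_le_mul_of_nonneg_right hκ' hT0
    exact_mod_cast this
  · -- the intervals of the question
    obtain ⟨T, hT⟩ : ∃ T : ℕ, T = ⌊(θ / 2 * Real.logb 2 X) ^ 2⌋₊ := ⟨_, rfl⟩
    have hlb : Real.logb 2 X = Real.log X / Real.log 2 := rfl
    have hl2 : 0 < Real.log 2 := Real.log_pos (by norm_num)
    have hl2' : Real.log 2 < 0.7 := by
      have := Real.log_two_lt_d9
      linarith
    have hl2'' : 1 / 2 < Real.log 2 := by
      have := Real.log_two_gt_d9
      linarith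
    have hlb1 : Real.log X / 0.7 ≤ Real.logb 2 X := by
      rw [hlb]
      exact div_le_div_of_nonneg_left hl0.le hl2 hl2'.le
    have hlb2 : Real.logb 2 X ≤ 2 * Real.log X := by
      rw [hlb, div_le_iff₀ hl2]
      nlinarith
    have hlb0 : 0 < Real.logb 2 X := lt_of_lt_of_le (by positivity) hlb1
    have hsq : θ ^ 2 / 4 * (2 * Real.log X ^ 2) ≤ (θ / 2 * Real.logb 2 X) ^ 2 := by
      have a1 : (Real.log X / 0.7) ^ 2 ≤ Real.logb 2 X ^ 2 := pow_le_pow_left₀ (by positivity) hlb1 2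
      have a2 : 2 * Real.log X ^ 2 ≤ (Real.log X / 0.7) ^ 2 := by
        rw [div_pow, le_div_iff₀ (by norm_num)]
        nlinarith [sq_nonneg (Real.log X)]
      calc θ ^ 2 / 4 * (2 * Real.log X ^ 2) ≤ θ ^ 2 / 4 * Real.logb 2 X ^ 2 :=
            mul_le_mul_of_nonneg_left (a2.trans a1) hθ2.le
        _ = _ := by ring
    have hlθ : 1 ≤ θ ^ 2 / 4 * Real.log X := by
      have a2 : 4 / θ ^ 2 ≤ Real.log X := by linarith
      rw [div_le_iff₀ (by positivity)] at a2
      linarith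
    have hT1 : θ ^ 2 / 4 * Real.log X ^ 2 ≤ T := by
      have a1 := Nat.lt_floor_add_one ((θ / 2 * Real.logb 2 X) ^ 2)
      rw [← hT] at a1
      have a3 : 1 ≤ θ ^ 2 / 4 * Real.log X ^ 2 := by nlinarith
      linarith
    have hTl : Real.log X ≤ T := by
      refine le_trans ?_ hT1
      nlinarith
    have hT2 : T₀ ≤ T := by
      have a2 : (T₀ : ℝ) ≤ T := by
        refine le_trans ?_ hTl
        have a3 : (1 : ℝ) ≤ 4 / θ ^ 2 := by
          rw [le_div_iff₀ (by positivity)]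
          nlinarith
        nlinarith
      exact_mod_cast a2
    have hT3 : (T : ℝ) ≤ Real.log X ^ 3 := by
      rw [hT]
      refine (Nat.floor_le (by positivity)).trans ?_
      have a1 : θ / 2 * Real.logb 2 X ≤ Real.log X := by nlinarith
      have a2 : (θ / 2 * Real.logb 2 X) ^ 2 ≤ Real.log X ^ 2 := pow_le_pow_left₀ (by positivity) a1 2
      exact a2.trans (pow_le_pow_right₀ (by linarith) (by norm_num))
    have h5 := h2 Z L T hL hZL hT2 hT3
    have hmn : min 1 ((T : ℝ) / Real.log X) = 1 := by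
      apply min_eq_left
      rw [le_div_iff₀ hl0]
      linarith
    rw [hmn, mul_one] at h5
    obtain ⟨E1, hE1⟩ : ∃ E1, E1 = ((Ioc Z (Z + L)).filter (fun n : ℕ =>
        1 ≤ Pool.Agent.L0h41.QN.Nsq n k T ((X : ℝ) ^ (θ / 5)) ∧
        κ * (T / Real.log X) ≤ Pool.Agent.L0h41.QN.Nsq n k T ((X : ℝ) ^ (θ / 5)))) := ⟨_, rfl⟩
    rw [← hE1] at h5
    obtain ⟨M, hM⟩ : ∃ M : ℕ, M = ⌊(X : ℝ) ^ (θ / 2)⌋₊ := ⟨_, rfl⟩
    have hML : (M : ℝ) ≤ κ / 2 * L := by
      have a1 : (M : ℝ) ≤ (X : ℝ) ^ (θ / 2) := by rw [hM]; exact Nat.floor_le (by positivity)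
      have a2 : (X : ℝ) ^ θ = (X : ℝ) ^ (θ / 2) * (X : ℝ) ^ (θ / 2) := by
        rw [← Real.rpow_add hX0]
        congr 1
        ring
      have a3 : (X : ℝ) ^ (θ / 2) ≤ κ / 2 * (X : ℝ) ^ θ := by
        rw [a2]
        have a4 : 1 ≤ κ / 2 * (X : ℝ) ^ (θ / 2) := by
          rw [div_le_iff₀ hκ] at h4
          linarith
        have a5 : 0 ≤ (X : ℝ) ^ (θ / 2) := by positivity
        nlinarith
      exact a1.trans (a3.trans (mul_le_mul_of_nonneg_left hL (by positivity)))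
    have hsub : E1 ⊆ ((Ioc Z (Z + L)).filter (fun n : ℕ =>
        κ * (θ ^ 2 / 4) * Real.log n ≤ N n k ⌊(Real.logb 2 n) ^ 2⌋₊ ((X : ℝ) ^ (θ / 5)))) ∪ Ioc 0 M := by
      intro n hn
      rw [hE1, mem_filter, mem_Ioc] at hn
      obtain ⟨⟨a1, a1'⟩, -, a2⟩ := hn
      rw [mem_union]
      rcases Nat.lt_or_ge M n with b1 | b1
      · left
        rw [mem_filter, mem_Ioc]
        refine ⟨⟨a1, a1'⟩, ?_⟩
        have b2 : (X : ℝ) ^ (θ / 2) ≤ n := by
          rw [hM] at b1
          exact (Nat.lt_of_floor_lt b1).le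
        have b3 : (n : ℝ) ≤ X := by exact_mod_cast (by omega : n ≤ X)
        have b0 : (0 : ℝ) < n := lt_of_lt_of_le (by positivity) b2
        have b4 : θ / 2 * Real.logb 2 X ≤ Real.logb 2 n := by
          rw [← Real.logb_rpow_eq_mul_logb_of_pos hX0]
          exact Real.logb_le_logb_of_le (by norm_num) (by positivity) b2
        have b5 : T ≤ ⌊(Real.logb 2 n) ^ 2⌋₊ := by
          rw [hT]
          exact Nat.floor_le_floor (pow_le_pow_left₀ (by positivity) b4 2)
        have b6 : (N n k T ((X : ℝ) ^ (θ / 5)) : ℝ) ≤ N n k ⌊(Real.logb 2 n) ^ 2⌋₊ ((X : ℝ) ^ (θ / 5)) := by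
          exact_mod_cast N_mono n k _ _ _ b5
        have b7 : Real.log n ≤ Real.log X := Real.log_le_log b0 b3
        have b8 : θ ^ 2 / 4 * Real.log X ≤ T / Real.log X := by
          rw [le_div_iff₀ hl0]
          have e : θ ^ 2 / 4 * Real.log X * Real.log X = θ ^ 2 / 4 * Real.log X ^ 2 := by ring
          rw [e]
          exact hT1
        have a2' : κ * (T / Real.log X) ≤ (N n k T ((X : ℝ) ^ (θ / 5)) : ℝ) := a2
        calc κ * (θ ^ 2 / 4) * Real.log n ≤ κ * (θ ^ 2 / 4) * Real.log X :=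
              mul_le_mul_of_nonneg_left b7 (by positivity)
          _ = κ * (θ ^ 2 / 4 * Real.log X) := by ring
          _ ≤ κ * (T / Real.log X) := mul_le_mul_of_nonneg_left b8 hκ.le
          _ ≤ _ := a2'
          _ ≤ _ := b6
      · right
        rw [mem_Ioc]
        omega
    have h6 : (E1.card : ℝ) ≤ (((Ioc Z (Z + L)).filter (fun n : ℕ =>
        κ * (θ ^ 2 / 4) * Real.log n ≤ N n k ⌊(Real.logb 2 n) ^ 2⌋₊ ((X : ℝ) ^ (θ / 5)))).card : ℝ) + M := by
      have a1 := (card_le_card hsub).trans (card_union_le _ _)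
      rw [Nat.card_Ioc, Nat.sub_zero] at a1
      exact_mod_cast a1
    have h7 : κ * (θ ^ 2 / 4) * L ≤ κ / 2 * L := by
      apply mul_le_mul_of_nonneg_right _ hL0
      nlinarith
    linarith

end Pool.Agent.Results.MP_73869e_nt.ThreePrimeFactors
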